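import Pool.Agent.H693R2.Mat.Fwd

/-!
# A configuration with the given collinearities solves the system
-/

set_option autoImplicit false

namespace Pool.Agent.H693R2.Mat

theorem D_smul1 (x y z : V3) (c : ℚ) : D (c • x) y z = c * D x y z := by
  simp only [D, Prod.smul_fst, Prod.smul_snd, smul_eq_mul]; ring

/-- coordinates in a frame -/
theorem coords (I O U z : V3) (h : D I O U ≠ 0) : ∃ p q r : ℚ, z = p • I + q • O + r • U := by
  refine ⟨D z O U / D I O U, D I z U / D I O U, D I O z / D I O U, ?_⟩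
  ext
  · simp only [Prod.fst_add, Prod.smul_fst, smul_eq_mul]
    field_simp
    simp only [D]
    ring
  · simp only [Prod.fst_add, Prod.smul_fst, Prod.snd_add, Prod.smul_snd, smul_eq_mul]
    field_simp
    simp only [D]
    ring
  · simp only [Prod.snd_add, Prod.smul_snd, smul_eq_mul]
    field_simp
    simp only [D]
    ring

theorem D_comb (I O U : V3) (x1 x2 x3 y1 y2 y3 z1 z2 z3 : ℚ) :
    D (x1 • I + x2 • O + x3 • U) (y1 • I + y2 • O + y3 • U) (z1 • I + z2 • O + z3 • U) =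
      (x1 * (y2 * z3 - y3 * z2) - x2 * (y1 * z3 - y3 * z1) + x3 * (y1 * z2 - y2 * z1)) * D I O U := by
  simp only [D, Prod.fst_add, Prod.smul_fst, Prod.snd_add, Prod.smul_snd, smul_eq_mul]
  ring

theorem D_add' (x y z w : V3) : D (x + y) z w = D x z w + D y z w := by
  simp only [D, Prod.fst_add, Prod.snd_add]; ring

/-- the addition quadrangle -/
theorem back_add (I O U V P Q : V3) (a b c : ℚ) (h : D I O U ≠ 0)
    (hV : D I O V ≠ 0) (hP : D I O P ≠ 0) (hQ : D I O Q ≠ 0) (hUP : D I U P ≠ 0)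
    (h01 : D I U V = 0) (h02 : D (a • I + O) U P = 0) (h03 : D (c • I + O) U Q = 0)
    (h12 : D O V P = 0) (h13 : D (b • I + O) V Q = 0) (h23 : D I P Q = 0) : a + b = c := by
  obtain ⟨v1, v2, v3, rfl⟩ := coords I O U V h
  obtain ⟨p1, p2, p3, rfl⟩ := coords I O U P h
  obtain ⟨q1, q2, q3, rfl⟩ := coords I O U Q h
  have e (x1 x2 x3 y1 y2 y3 z1 z2 z3 : ℚ) := D_comb I O U x1 x2 x3 y1 y2 y3 z1 z2 z3
  have eI : I = (1 : ℚ) • I + (0 : ℚ) • O + (0 : ℚ) • U := by simp
  have eO : O = (0 : ℚ) • I + (1 : ℚ) • O + (0 : ℚ) • U := by simp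
  have eU : U = (0 : ℚ) • I + (0 : ℚ) • O + (1 : ℚ) • U := by simp
  have eL (t : ℚ) : t • I + O = t • I + (1 : ℚ) • O + (0 : ℚ) • U := by simp
  set Δ := D I O U with hΔ
  have z1 : v2 = 0 := by
    have := e 1 0 0 0 0 1 v1 v2 v3
    rw [← eI, ← eU, h01] at this
    have h' := mul_eq_zero.1 this.symm
    rcases h' with h' | h'
    · linarith
    · exact absurd h' h
  have z2 : p1 = a * p2 := by
    have := e a 1 0 0 0 1 p1 p2 p3
    rw [← eL, ← eU, h02] at this
    rcases mul_eq_zero.1 this.symm with h' | h'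
    · linarith
    · exact absurd h' h
  have z3 : q1 = c * q2 := by
    have := e c 1 0 0 0 1 q1 q2 q3
    rw [← eL, ← eU, h03] at this
    rcases mul_eq_zero.1 this.symm with h' | h'
    · linarith
    · exact absurd h' h
  have z4 : v1 * p3 = v3 * p1 := by
    have := e 0 1 0 v1 v2 v3 p1 p2 p3
    rw [← eO, h12] at this
    rcases mul_eq_zero.1 this.symm with h' | h'
    · linarith
    · exact absurd h' h
  have z5 : b * (v2 * q3 - v3 * q2) - (v1 * q3 - v3 * q1) = 0 := by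
    have := e b 1 0 v1 v2 v3 q1 q2 q3
    rw [← eL, h13] at this
    rcases mul_eq_zero.1 this.symm with h' | h'
    · linarith
    · exact absurd h' h
  have z6 : p2 * q3 = p3 * q2 := by
    have := e 1 0 0 p1 p2 p3 q1 q2 q3
    rw [← eI, h23] at this
    rcases mul_eq_zero.1 this.symm with h' | h'
    · linarith
    · exact absurd h' h
  have n1 : v3 ≠ 0 := by
    intro h0
    apply hV
    have := e 1 0 0 0 1 0 v1 v2 v3
    rw [← eI, ← eO] at this
    rw [this, h0]; ring
  have n2 : p3 ≠ 0 := by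
    intro h0
    apply hP
    have := e 1 0 0 0 1 0 p1 p2 p3
    rw [← eI, ← eO] at this
    rw [this, h0]; ring
  have n3 : q3 ≠ 0 := by
    intro h0
    apply hQ
    have := e 1 0 0 0 1 0 q1 q2 q3
    rw [← eI, ← eO] at this
    rw [this, h0]; ring
  have n4 : p2 ≠ 0 := by
    intro h0
    apply hUP
    have := e 1 0 0 0 0 1 p1 p2 p3
    rw [← eI, ← eU] at this
    rw [this, h0]; ring
  have key : (a + b - c) * (v3 * p2 * q3) = 0 := by
    subst z1 z2 z3
    linear_combination (-q3) * z4 - p3 * z5 + (b - c) * v3 * z6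
  rcases mul_eq_zero.1 key with h' | h'
  · linarith
  · exact absurd h' (mul_ne_zero (mul_ne_zero n1 n4) n3)

/-- the multiplication quadrangle -/
theorem back_mul (I O U V P Q : V3) (a b c : ℚ) (h : D I O U ≠ 0)
    (hV : D I O V ≠ 0) (hP : D I O P ≠ 0) (hQ : D I O Q ≠ 0) (hUQ : D I U Q ≠ 0)
    (h01 : D I U V = 0) (h02 : D (I + O) U P = 0) (h03 : D (a • I + O) U Q = 0)
    (h12 : D (b • I + O) V P = 0) (h13 : D (c • I + O) V Q = 0) (h23 : D O P Q = 0) : a * b = c := by
  obtain ⟨v1, v2, v3, rfl⟩ := coords I O U V h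
  obtain ⟨p1, p2, p3, rfl⟩ := coords I O U P h
  obtain ⟨q1, q2, q3, rfl⟩ := coords I O U Q h
  have e (x1 x2 x3 y1 y2 y3 z1 z2 z3 : ℚ) := D_comb I O U x1 x2 x3 y1 y2 y3 z1 z2 z3
  have eI : I = (1 : ℚ) • I + (0 : ℚ) • O + (0 : ℚ) • U := by simp
  have eO : O = (0 : ℚ) • I + (1 : ℚ) • O + (0 : ℚ) • U := by simp
  have eU : U = (0 : ℚ) • I + (0 : ℚ) • O + (1 : ℚ) • U := by simp
  have eL (t : ℚ) : t • I + O = t • I + (1 : ℚ) • O + (0 : ℚ) • U := by simp
  have eE : I + O = (1 : ℚ) • I + (1 : ℚ) • O + (0 : ℚ) • U := by simp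
  set Δ := D I O U with hΔ
  have z1 : v2 = 0 := by
    have := e 1 0 0 0 0 1 v1 v2 v3
    rw [← eI, ← eU, h01] at this
    have h' := mul_eq_zero.1 this.symm
    rcases h' with h' | h'
    · linarith
    · exact absurd h' h
  have z2 : p1 = p2 := by
    have := e 1 1 0 0 0 1 p1 p2 p3
    rw [← eE, ← eU, h02] at this
    rcases mul_eq_zero.1 this.symm with h' | h'
    · linarith
    · exact absurd h' h
  have z3 : q1 = a * q2 := by
    have := e a 1 0 0 0 1 q1 q2 q3
    rw [← eL, ← eU, h03] at this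
    rcases mul_eq_zero.1 this.symm with h' | h'
    · linarith
    · exact absurd h' h
  have z4 : b * (v2 * p3 - v3 * p2) - (v1 * p3 - v3 * p1) = 0 := by
    have := e b 1 0 v1 v2 v3 p1 p2 p3
    rw [← eL, h12] at this
    rcases mul_eq_zero.1 this.symm with h' | h'
    · linarith
    · exact absurd h' h
  have z5 : c * (v2 * q3 - v3 * q2) - (v1 * q3 - v3 * q1) = 0 := by
    have := e c 1 0 v1 v2 v3 q1 q2 q3
    rw [← eL, h13] at this
    rcases mul_eq_zero.1 this.symm with h' | h'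
    · linarith
    · exact absurd h' h
  have z6 : p1 * q3 = p3 * q1 := by
    have := e 0 1 0 p1 p2 p3 q1 q2 q3
    rw [← eO, h23] at this
    rcases mul_eq_zero.1 this.symm with h' | h'
    · linarith
    · exact absurd h' h
  have n1 : v3 ≠ 0 := by
    intro h0
    apply hV
    have := e 1 0 0 0 1 0 v1 v2 v3
    rw [← eI, ← eO] at this
    rw [this, h0]; ring
  have n2 : p3 ≠ 0 := by
    intro h0
    apply hP
    have := e 1 0 0 0 1 0 p1 p2 p3
    rw [← eI, ← eO] at this
    rw [this, h0]; ring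
  have n4 : q2 ≠ 0 := by
    intro h0
    apply hUQ
    have := e 1 0 0 0 0 1 q1 q2 q3
    rw [← eI, ← eU] at this
    rw [this, h0]; ring
  have key : (a * b - c) * (v3 * p3 * q2) = 0 := by
    subst z1 z2 z3
    linear_combination (-q3) * z4 + p3 * z5 + (1 - b) * v3 * z6
  rcases mul_eq_zero.1 key with h' | h'
  · linarith
  · exact absurd h' (mul_ne_zero (mul_ne_zero n1 n2) n4)

theorem NB_at (m : ℕ) (R : List Rel) (s : ℕ) (hs : s < R.length) (r : Rel) (hr : R[s] = r) (i p q : ℕ)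
    (hi : i < m) (hp : p < 4) (hq : q < 4) :
    NB m R i (m + 4 * s + p) (m + 4 * s + q) ↔ i = side r p q := by
  have e1 : (m + 4 * s + p - m) / 4 = s := by omega
  have e2 : (m + 4 * s + q - m) / 4 = s := by omega
  have e3 : (m + 4 * s + p - m) % 4 = p := by omega
  have e4 : (m + 4 * s + q - m) % 4 = q := by omega
  unfold NB
  rw [e1, e2, e3, e4]
  have e5 : R.getD s (true, 0, 0, 0) = r := by
    rw [List.getD_eq_getElem _ _ hs, hr]
  rw [e5]
  constructor
  · rintro (h | ⟨_, _, _, h⟩)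
    · omega
    · exact h
  · intro h
    right
    exact ⟨hi, by omega, rfl, h⟩

theorem NB_two (m : ℕ) (R : List Rel) (i j k : ℕ) (hj : j < m) (hk : m ≤ k) : ¬ NB m R i j k := by
  unfold NB
  rintro (h | ⟨_, h, _⟩) <;> omega

theorem NB_line (m : ℕ) (R : List Rel) (i j k : ℕ) (hk : k < m) : NB m R i j k := Or.inl hk

/-- the system has a solution -/
theorem backward (m : ℕ) (R : List Rel) (u : ℕ → V3) (hm : 3 ≤ m) (hR : R ≠ [])
    (hidx : ∀ r ∈ R, (3 ≤ r.2.1 ∧ r.2.1 < m) ∧ (3 ≤ r.2.2.1 ∧ r.2.2.1 < m) ∧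
      (3 ≤ r.2.2.2 ∧ r.2.2.2 < m))
    (h : ∀ i j k, i < j → j < k → k < m + 4 * R.length → (D (u i) (u j) (u k) = 0 ↔ NB m R i j k)) :
    ∃ y : ℕ → ℚ, ∀ r ∈ R, RHolds y r := by
  have hpos : 0 < R.length := List.length_pos_of_ne_nil hR
  have hX : D (u 0) (u 1) (u m) ≠ 0 := fun h0 =>
    NB_two m R 0 1 m (by omega) le_rfl ((h 0 1 m (by omega) (by omega) (by omega)).1 h0)
  -- points of the line
  have hline : ∀ t, 2 ≤ t → t < m → ∃ p q : ℚ, p ≠ 0 ∧ q ≠ 0 ∧ u t = p • u 0 + q • u 1 := by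
    intro t ht htm
    obtain ⟨p, q, r, hz⟩ := coords (u 0) (u 1) (u m) (u t) hX
    have e0 : u 0 = (1 : ℚ) • u 0 + (0 : ℚ) • u 1 + (0 : ℚ) • u m := by simp
    have e1 : u 1 = (0 : ℚ) • u 0 + (1 : ℚ) • u 1 + (0 : ℚ) • u m := by simp
    have em : u m = (0 : ℚ) • u 0 + (0 : ℚ) • u 1 + (1 : ℚ) • u m := by simp
    have h1 : D (u 0) (u 1) (u t) = 0 :=
      (h 0 1 t (by omega) (by omega) (by omega)).2 (NB_line m R 0 1 t htm)
    have h2 : D (u 0) (u t) (u m) ≠ 0 := fun h0 =>
      NB_two m R 0 t m htm le_rfl ((h 0 t m (by omega) (by omega) (by omega)).1 h0)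
    have h3 : D (u 1) (u t) (u m) ≠ 0 := fun h0 =>
      NB_two m R 1 t m htm le_rfl ((h 1 t m (by omega) (by omega) (by omega)).1 h0)
    have f1 : D (u 0) (u 1) (u t) = r * D (u 0) (u 1) (u m) := by
      have := D_comb (u 0) (u 1) (u m) 1 0 0 0 1 0 p q r
      rw [← e0, ← e1, ← hz] at this
      rw [this]; ring
    have f2 : D (u 0) (u t) (u m) = q * D (u 0) (u 1) (u m) := by
      have := D_comb (u 0) (u 1) (u m) 1 0 0 p q r 0 0 1
      rw [← e0, ← em, ← hz] at this
      rw [this]; ring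
    have f3 : D (u 1) (u t) (u m) = - p * D (u 0) (u 1) (u m) := by
      have := D_comb (u 0) (u 1) (u m) 0 1 0 p q r 0 0 1
      rw [← e1, ← em, ← hz] at this
      rw [this]; ring
    have r0 : r = 0 := by
      rw [f1] at h1
      rcases mul_eq_zero.1 h1 with h' | h'
      · exact h'
      · exact absurd h' hX
    refine ⟨p, q, ?_, ?_, ?_⟩
    · rintro rfl; apply h3; rw [f3]; ring
    · rintro rfl; apply h2; rw [f2]; ring
    · rw [hz, r0]; simp
  obtain ⟨p, q, hp, hq, h2⟩ := hline 2 le_rfl (by omega)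
  set I : V3 := p • u 0 with hI
  set O : V3 := q • u 1 with hO
  have hy : ∀ t, ∃ y k : ℚ, 3 ≤ t → t < m → k ≠ 0 ∧ u t = k • (y • I + O) := by
    intro t
    by_cases ht : 3 ≤ t ∧ t < m
    · obtain ⟨p', q', hp', hq', h3⟩ := hline t (by omega) ht.2
      refine ⟨(p' / p) / (q' / q), q' / q, fun _ _ => ⟨div_ne_zero hq' hq, ?_⟩⟩
      rw [h3, hI, hO, smul_add, smul_smul, smul_smul, smul_smul]
      congr 2
      · field_simp
      · field_simp
    · exact ⟨0, 0, fun h1 h2 => absurd ⟨h1, h2⟩ ht⟩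
  choose y k hyk using hy
  refine ⟨y, ?_⟩
  intro r hr
  obtain ⟨s, hs, hrs⟩ := List.mem_iff_getElem.1 hr
  have hs' : m + 4 * s + 4 ≤ m + 4 * R.length := by omega
  have tri : ∀ i p q, i < m → p < q → q < 4 →
      (D (u i) (u (m + 4 * s + p)) (u (m + 4 * s + q)) = 0 ↔ i = side r p q) := by
    intro i p q hi hpq hq
    rw [h i _ _ (by omega) (by omega) (by omega)]
    exact NB_at m R s hs r hrs i p q hi (by omega) hq
  have off : ∀ p, p < 4 → D I O (u (m + 4 * s + p)) ≠ 0 := by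
    intro p' hp' h0
    rw [hI, hO, D_smul1, D_smul2] at h0
    have h1 : D (u 0) (u 1) (u (m + 4 * s + p')) = 0 := by
      rcases mul_eq_zero.1 h0 with h' | h'
      · exact absurd h' hp
      · rcases mul_eq_zero.1 h' with h' | h'
        · exact absurd h' hq
        · exact h'
    exact NB_two m R 0 1 _ (by omega) (by omega) ((h 0 1 _ (by omega) (by omega) (by omega)).1 h1)
  have tri0 : ∀ p' q', p' < q' → q' < 4 →
      (D I (u (m + 4 * s + p')) (u (m + 4 * s + q')) = 0 ↔ 0 = side r p' q') := by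
    intro p' q' h1 h2
    rw [hI, D_smul1, mul_eq_zero, or_iff_right hp]
    exact tri 0 p' q' (by omega) h1 h2
  have tri1 : ∀ p' q', p' < q' → q' < 4 →
      (D O (u (m + 4 * s + p')) (u (m + 4 * s + q')) = 0 ↔ 1 = side r p' q') := by
    intro p' q' h1 h2
    rw [hO, D_smul1, mul_eq_zero, or_iff_right hq]
    exact tri 1 p' q' (by omega) h1 h2
  have tri2 : ∀ p' q', p' < q' → q' < 4 →
      (D (I + O) (u (m + 4 * s + p')) (u (m + 4 * s + q')) = 0 ↔ 2 = side r p' q') := by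
    intro p' q' h1 h2'
    rw [← h2]
    exact tri 2 p' q' (by omega) h1 h2'
  have triy : ∀ t p' q', 3 ≤ t → t < m → p' < q' → q' < 4 →
      (D (y t • I + O) (u (m + 4 * s + p')) (u (m + 4 * s + q')) = 0 ↔ t = side r p' q') := by
    intro t p' q' h3 htm h1 h2'
    have hk := hyk t h3 htm
    rw [← tri t p' q' htm h1 h2', hk.2, D_smul1, mul_eq_zero, or_iff_right hk.1]
  obtain ⟨ty, a, b, c⟩ := r
  obtain ⟨⟨ha3, ham⟩, ⟨hb3, hbm⟩, ⟨hc3, hcm⟩⟩ := hidx _ hr
  simp only at ha3 ham hb3 hbm hc3 hcm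
  have o0 := off 0 (by omega)
  have o1 := off 1 (by omega)
  have o2 := off 2 (by omega)
  have o3 := off 3 (by omega)
  cases ty with
  | true =>
    refine ⟨fun _ => ?_, fun h => by simp at h⟩
    apply back_add I O _ _ _ _ (y a) (y b) (y c) o0 o1 o2 o3
    · rw [Ne, tri0 0 2 (by omega) (by omega)]
      simp [side]; omega
    · rw [tri0 0 1 (by omega) (by omega)]; simp [side]
    · rw [triy a 0 2 ha3 ham (by omega) (by omega)]; simp [side]
    · rw [triy c 0 3 hc3 hcm (by omega) (by omega)]; simp [side]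
    · rw [tri1 1 2 (by omega) (by omega)]; simp [side]
    · rw [triy b 1 3 hb3 hbm (by omega) (by omega)]; simp [side]
    · rw [tri0 2 3 (by omega) (by omega)]; simp [side]
  | false =>
    refine ⟨fun h => by simp at h, fun _ => ?_⟩
    apply back_mul I O _ _ _ _ (y a) (y b) (y c) o0 o1 o2 o3
    · rw [Ne, tri0 0 3 (by omega) (by omega)]
      simp [side]; omega
    · rw [tri0 0 1 (by omega) (by omega)]; simp [side]
    · rw [tri2 0 2 (by omega) (by omega)]; simp [side]
    · rw [triy a 0 3 ha3 ham (by omega) (by omega)]; simp [side]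
    · rw [triy b 1 2 hb3 hbm (by omega) (by omega)]; simp [side]
    · rw [triy c 1 3 hc3 hcm (by omega) (by omega)]; simp [side]
    · rw [tri1 2 3 (by omega) (by omega)]; simp [side]

end Pool.Agent.H693R2.Mat
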