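import Pool.Agent.H693R2.Mat.Geo

/-!
# Realising a system of sums and products: the configuration exists
-/

set_option autoImplicit false

namespace Pool.Agent.H693R2.Mat

theorem NP_of_D13 {x y z : V3} (h : D x y z ≠ 0) : NP x z := by
  by_contra hn
  unfold NP at hn
  push Not at hn
  apply h
  obtain ⟨h1, h2, h3⟩ := hn
  simp only [D]
  linear_combination y.1 * (-h1) + y.2.1 * h2 - y.2.2 * h3

theorem NP_of_D12 {x y z : V3} (h : D x y z ≠ 0) : NP x y := by
  by_contra hn
  unfold NP at hn
  push Not at hn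
  apply h
  obtain ⟨h1, h2, h3⟩ := hn
  simp only [D]
  linear_combination z.1 * h1 - z.2.1 * h2 + z.2.2 * h3

theorem NP_of_D23 {x y z : V3} (h : D x y z ≠ 0) : NP y z := by
  by_contra hn
  unfold NP at hn
  push Not at hn
  apply h
  obtain ⟨h1, h2, h3⟩ := hn
  simp only [D]
  linear_combination x.1 * h1 - x.2.1 * h2 + x.2.2 * h3

theorem D_perm1 (x y z : V3) : D x z y = - D x y z := by
  simp only [D]; ring

theorem D_perm2 (x y z : V3) : D y x z = - D x y z := by
  simp only [D]; ring

theorem D_self12 (x z : V3) : D x x z = 0 := by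
  simp only [D]; ring

theorem D_self13 (x z : V3) : D x z x = 0 := by
  simp only [D]; ring

theorem D_smul3 (x y z : V3) (c : ℚ) : D x y (c • z) = c * D x y z := by
  simp only [D, Prod.smul_fst, Prod.smul_snd, smul_eq_mul]; ring

theorem D_smul2 (x y z : V3) (c : ℚ) : D x (c • y) z = c * D x y z := by
  simp only [D, Prod.smul_fst, Prod.smul_snd, smul_eq_mul]; ring

/-- the new configuration -/
def ext4 (n : ℕ) (v : ℕ → V3) (U V P Q : V3) (i : ℕ) : V3 :=
  if i < n then v i else if i = n then U else if i = n + 1 then V else if i = n + 2 then P else Q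

section
variable {n : ℕ} {v : ℕ → V3} {U V P Q : V3}

theorem ext4_lt {i : ℕ} (h : i < n) : ext4 n v U V P Q i = v i := by simp [ext4, h]
theorem ext4_0 : ext4 n v U V P Q n = U := by simp [ext4]
theorem ext4_1 : ext4 n v U V P Q (n + 1) = V := by simp [ext4]
theorem ext4_2 : ext4 n v U V P Q (n + 2) = P := by simp [ext4]
theorem ext4_3 : ext4 n v U V P Q (n + 3) = Q := by simp [ext4]

end

/-- old triples -/
theorem NB_old (m : ℕ) (R : List Rel) (r : Rel) (i j k : ℕ) (_hij : i < j) (hjk : j < k)
    (hk : k < m + 4 * R.length) : NB m (R ++ [r]) i j k ↔ NB m R i j k := by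
  unfold NB
  by_cases hj : m ≤ j
  · have : (j - m) / 4 < R.length := by omega
    rw [List.getD_append _ _ _ _ this]
  · constructor
    · rintro (h | h)
      · exact Or.inl h
      · exact absurd h.2.1 hj
    · rintro (h | h)
      · exact Or.inl h
      · exact absurd h.2.1 hj

/-- new triples with two old points -/
theorem NB_new2 (m : ℕ) (R : List Rel) (r : Rel) (i j : ℕ) (k : ℕ)
    (hj : j < m + 4 * R.length) (hk : m + 4 * R.length ≤ k) : ¬ NB m (R ++ [r]) i j k := by
  unfold NB
  rintro (h | ⟨_, h1, h2, _⟩)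
  · omega
  · omega

/-- new triples with one old point -/
theorem NB_new1 (m : ℕ) (R : List Rel) (r : Rel) (i p q : ℕ) (hp : p < 4) (hq : q < 4)
    (hs : side r p q < m) :
    NB m (R ++ [r]) i (m + 4 * R.length + p) (m + 4 * R.length + q) ↔ i = side r p q := by
  have e1 : (m + 4 * R.length + p - m) / 4 = R.length := by omega
  have e2 : (m + 4 * R.length + q - m) / 4 = R.length := by omega
  have e3 : (m + 4 * R.length + p - m) % 4 = p := by omega
  have e4 : (m + 4 * R.length + q - m) % 4 = q := by omega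
  unfold NB
  rw [e1, e2, e3, e4]
  have e5 : (R ++ [r]).getD R.length (true, 0, 0, 0) = r := by simp
  rw [e5]
  constructor
  · rintro (h | ⟨_, _, _, h⟩)
    · omega
    · exact h
  · rintro rfl
    right
    exact ⟨hs, by omega, rfl, rfl⟩

theorem NB_new0 (m : ℕ) (R : List Rel) (r : Rel) (i j k : ℕ)
    (hi : m + 4 * R.length ≤ i) (hij : i < j) (hjk : j < k) : ¬ NB m (R ++ [r]) i j k := by
  unfold NB
  rintro (h | ⟨h, _⟩)
  · omega
  · omega

/-- adding a quadrangle -/
theorem Cfg.extend {m : ℕ} {R : List Rel} {x : ℕ → ℚ} {v : ℕ → V3} (h : Cfg m R x v) (hm : 3 ≤ m)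
    (r : Rel) (U V P Q : V3)
    (hs : ∀ p q, p < q → q < 4 → side r p q < m)
    (hU : ∀ i j, i < j → j < m + 4 * R.length → D (v i) (v j) U ≠ 0)
    (hV : ∀ i j, i < j → j < m + 4 * R.length →
      D (v i) (v j) V ≠ 0 ∧ D (v i) (v j) P ≠ 0 ∧ D (v i) (v j) Q ≠ 0)
    (h01 : ∀ i, i < m + 4 * R.length → (D (v i) U V = 0 ↔ i = side r 0 1))
    (h02 : ∀ i, i < m + 4 * R.length → (D (v i) U P = 0 ↔ i = side r 0 2))
    (h03 : ∀ i, i < m + 4 * R.length → (D (v i) U Q = 0 ↔ i = side r 0 3))
    (h12 : ∀ i, i < m + 4 * R.length → (D (v i) V P = 0 ↔ i = side r 1 2))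
    (h13 : ∀ i, i < m + 4 * R.length → (D (v i) V Q = 0 ↔ i = side r 1 3))
    (h23 : ∀ i, i < m + 4 * R.length → (D (v i) P Q = 0 ↔ i = side r 2 3))
    (d1 : D U V P ≠ 0) (d2 : D U V Q ≠ 0) (d3 : D U P Q ≠ 0) (d4 : D V P Q ≠ 0) :
    Cfg m (R ++ [r]) x (ext4 (m + 4 * R.length) v U V P Q) := by
  have hlen : m + 4 * (R ++ [r]).length = m + 4 * R.length + 4 := by
    simp only [List.length_append, List.length_singleton]; ring
  set n := m + 4 * R.length with hn
  have hnm : m ≤ n := by omega
  -- the vectors are not parallel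
  have npU : ∀ i, i < n → NP (v i) U := by
    intro i hi
    by_cases h0 : i = 0
    · subst h0
      exact NP_of_D13 (hU 0 1 (by omega) (by omega))
    · exact NP_of_D23 (hU 0 i (by omega) hi)
  have npV : ∀ i, i < n → NP (v i) V ∧ NP (v i) P ∧ NP (v i) Q := by
    intro i hi
    by_cases h0 : i = 0
    · subst h0
      obtain ⟨a, b, c⟩ := hV 0 1 (by omega) (by omega)
      exact ⟨NP_of_D13 a, NP_of_D13 b, NP_of_D13 c⟩
    · obtain ⟨a, b, c⟩ := hV 0 i (by omega) hi
      exact ⟨NP_of_D23 a, NP_of_D23 b, NP_of_D23 c⟩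
  refine ⟨?_, ?_, ?_⟩
  · intro i hi
    rw [ext4_lt (by omega)]
    exact h.line i hi
  · intro i j hij hj
    rw [hlen] at hj
    by_cases hjn : j < n
    · rw [ext4_lt hjn, ext4_lt (by omega)]
      exact h.pair i j hij hjn
    obtain ⟨q, rfl⟩ := Nat.exists_eq_add_of_le (not_lt.1 hjn)
    have hq : q < 4 := by omega
    by_cases hin : i < n
    · rw [ext4_lt hin]
      interval_cases q
      · rw [add_zero, ext4_0]; exact npU i hin
      · rw [ext4_1]; exact (npV i hin).1
      · rw [ext4_2]; exact (npV i hin).2.1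
      · rw [ext4_3]; exact (npV i hin).2.2
    · obtain ⟨p, rfl⟩ := Nat.exists_eq_add_of_le (not_lt.1 hin)
      have hp : p < q := by omega
      interval_cases q
      · omega
      · interval_cases p
        rw [add_zero, ext4_0, ext4_1]; exact NP_of_D12 d1
      · interval_cases p
        · rw [add_zero, ext4_0, ext4_2]; exact NP_of_D13 d1
        · rw [ext4_1, ext4_2]; exact NP_of_D23 d1
      · interval_cases p
        · rw [add_zero, ext4_0, ext4_3]; exact NP_of_D13 d2
        · rw [ext4_1, ext4_3]; exact NP_of_D13 d4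
        · rw [ext4_2, ext4_3]; exact NP_of_D23 d4
  · intro i j k hij hjk hk
    rw [hlen] at hk
    by_cases hkn : k < n
    · rw [ext4_lt hkn, ext4_lt (show j < n by omega), ext4_lt (show i < n by omega),
        NB_old m R r i j k hij hjk hkn]
      exact h.tri i j k hij hjk hkn
    obtain ⟨q, rfl⟩ := Nat.exists_eq_add_of_le (not_lt.1 hkn)
    have hq : q < 4 := by omega
    by_cases hjn : j < n
    · have hnb := NB_new2 m R r i j (n + q) hjn (by omega)
      rw [ext4_lt hjn, ext4_lt (show i < n by omega)]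
      refine iff_of_false ?_ hnb
      interval_cases q
      · rw [add_zero, ext4_0]; exact hU i j hij hjn
      · rw [ext4_1]; exact (hV i j hij hjn).1
      · rw [ext4_2]; exact (hV i j hij hjn).2.1
      · rw [ext4_3]; exact (hV i j hij hjn).2.2
    obtain ⟨p, rfl⟩ := Nat.exists_eq_add_of_le (not_lt.1 hjn)
    have hp : p < q := by omega
    by_cases hin : i < n
    · have hnb := NB_new1 m R r i p q (by omega) (by omega) (hs p q hp hq)
      rw [← hn] at hnb
      rw [hnb, ext4_lt hin]
      interval_cases q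
      · omega
      · interval_cases p
        rw [add_zero, ext4_0, ext4_1]; exact h01 i hin
      · interval_cases p
        · rw [add_zero, ext4_0, ext4_2]; exact h02 i hin
        · rw [ext4_1, ext4_2]; exact h12 i hin
      · interval_cases p
        · rw [add_zero, ext4_0, ext4_3]; exact h03 i hin
        · rw [ext4_1, ext4_3]; exact h13 i hin
        · rw [ext4_2, ext4_3]; exact h23 i hin
    · have hnb := NB_new0 m R r i (n + p) (n + q) (by omega) (by omega) (by omega)
      refine iff_of_false ?_ hnb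
      obtain ⟨o, rfl⟩ := Nat.exists_eq_add_of_le (not_lt.1 hin)
      have ho : o < p := by omega
      interval_cases q
      · omega
      · interval_cases p; omega
      · interval_cases p
        · omega
        · interval_cases o
          rw [add_zero, ext4_0, ext4_1, ext4_2]; exact d1
      · interval_cases p
        · omega
        · interval_cases o
          rw [add_zero, ext4_0, ext4_1, ext4_3]; exact d2
        · interval_cases o
          · rw [add_zero, ext4_0, ext4_2, ext4_3]; exact d3
          · rw [ext4_1, ext4_2, ext4_3]; exact d4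

/-- generic incidence of `U` with multiples of old points -/
theorem inc_of (n : ℕ) (v : ℕ → V3) (U : V3)
    (hU : ∀ i j, i < j → j < n → D (v i) (v j) U ≠ 0) (a : ℕ) (ha : a < n) (c : ℚ) (hc : c ≠ 0) (X : V3)
    (hX : X = c • v a) : ∀ i, i < n → (i ≠ a ↔ D (v i) U X ≠ 0) := by
  intro i hi
  rw [hX, D_smul3, D_perm1]
  constructor
  · intro hia h0
    have h1 : D (v i) (v a) U = 0 := by
      rcases mul_eq_zero.1 h0 with h | h
      · exact absurd h hc
      · linarith
    rcases lt_or_gt_of_ne hia with h | h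
    · exact hU i a h ha h1
    · rw [D_perm2] at h1
      exact hU a i h hi (by linarith)
  · rintro h rfl
    apply h
    rw [D_self12]
    ring

theorem inc_pair (n : ℕ) (v : ℕ → V3) (U : V3)
    (hU : ∀ i j, i < j → j < n → D (v i) (v j) U ≠ 0) (a b : ℕ) (ha : a < n) (hb : b < n) (hab : a ≠ b)
    (X Y : V3) (hX : X = v a) (hY : Y = v b) : D U X Y ≠ 0 := by
  subst hX hY
  have e : D U (v a) (v b) = D (v a) (v b) U := by simp only [D]; ring
  rw [e]
  rcases lt_or_gt_of_ne hab with h | h
  · exact hU a b h hb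
  · rw [D_perm2]
    exact neg_ne_zero.2 (hU b a h ha)

/-- conditions on the values -/
structure Good (m : ℕ) (R : List Rel) (x : ℕ → ℚ) : Prop where
  m3 : 3 ≤ m
  x0 : ∀ i, 3 ≤ i → i < m → x i ≠ 0
  x1 : ∀ i, 3 ≤ i → i < m → x i ≠ 1
  inj : ∀ i j, 3 ≤ i → i < j → j < m → x i ≠ x j
  idx : ∀ r ∈ R, (3 ≤ r.2.1 ∧ r.2.1 < m) ∧ (3 ≤ r.2.2.1 ∧ r.2.2.1 < m) ∧ (3 ≤ r.2.2.2 ∧ r.2.2.2 < m)
  rel : ∀ r ∈ R, RHolds x r

theorem cfg_nil (m : ℕ) (x : ℕ → ℚ) (h : Good m [] x) : Cfg m [] x (Lp x) := by
  refine ⟨fun i _ => rfl, ?_, ?_⟩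
  · intro i j hij hj
    have hj' : j < m := by simpa using hj
    unfold NP Lp
    rcases Nat.lt_or_ge i 3 with hi | hi
    · rcases Nat.lt_or_ge j 3 with hj3 | hj3
      · interval_cases j
        · omega
        · interval_cases i; simp
        · interval_cases i <;> simp
      · have h0 := h.x0 j hj3 hj'
        have h1 := h.x1 j hj3 hj'
        have e0 : j ≠ 0 := by omega
        have e1 : j ≠ 1 := by omega
        have e2 : j ≠ 2 := by omega
        interval_cases i
        · simp [e0, e1, e2]
        · simp [e0, e1, e2, h0]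
        · simp only [e0, e1, e2, if_false]
          simp only [show (2 : ℕ) ≠ 0 by norm_num, show (2 : ℕ) ≠ 1 by norm_num, if_false, if_true]
          right; left
          intro h'
          apply h1
          linarith
    · have hinj := h.inj i j hi hij hj'
      have e0 : j ≠ 0 := by omega
      have e1 : j ≠ 1 := by omega
      have e2 : j ≠ 2 := by omega
      have f0 : i ≠ 0 := by omega
      have f1 : i ≠ 1 := by omega
      have f2 : i ≠ 2 := by omega
      simp only [e0, e1, e2, f0, f1, f2, if_false]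
      right; left
      intro h'
      apply hinj
      linarith
  · intro i j k _ _ hk
    have hk' : k < m := by simpa using hk
    refine iff_of_true ?_ (Or.inl hk')
    have hz : ∀ t, (Lp x t).2.1 = 0 := by
      intro t
      unfold Lp
      split_ifs <;> rfl
    simp only [D, hz]
    ring

theorem Lp_zero (x : ℕ → ℚ) : Lp x 0 = (1, 0, 0) := by simp [Lp]
theorem Lp_one (x : ℕ → ℚ) : Lp x 1 = (0, 0, 1) := by simp [Lp]
theorem Lp_two (x : ℕ → ℚ) : Lp x 2 = (1, 0, 1) := by simp [Lp]
theorem Lp_ge (x : ℕ → ℚ) (i : ℕ) (h : 3 ≤ i) : Lp x i = (x i, 0, 1) := by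
  have f0 : i ≠ 0 := by omega
  have f1 : i ≠ 1 := by omega
  have f2 : i ≠ 2 := by omega
  simp [Lp, f0, f1, f2]

theorem D_line (x y z : V3) (hx : x.2.1 = 0) (hy : y.2.1 = 0) (hz : z.2.1 = 0) : D x y z = 0 := by
  simp only [D, hx, hy, hz]; ring

theorem Good.init {m : ℕ} {R : List Rel} {r : Rel} {x : ℕ → ℚ} (h : Good m (R ++ [r]) x) : Good m R x :=
  ⟨h.m3, h.x0, h.x1, h.inj, fun s hs => h.idx s (List.mem_append_left _ hs),
    fun s hs => h.rel s (List.mem_append_left _ hs)⟩

/-- the configuration exists -/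
theorem forward (m : ℕ) (R : List Rel) (x : ℕ → ℚ) (h : Good m R x) : ∃ v, Cfg m R x v := by
  induction R using List.reverseRecOn with
  | nil => exact ⟨_, cfg_nil m x h⟩
  | append_singleton R r ih =>
    obtain ⟨v, hv⟩ := ih h.init
    obtain ⟨U, hU⟩ := exists_generic (m + 4 * R.length) v hv.pair
    obtain ⟨ty, a, b, c⟩ := r
    have hidx := h.idx (ty, a, b, c) (by simp)
    have hrel := h.rel (ty, a, b, c) (by simp)
    obtain ⟨⟨ha3, ham⟩, ⟨hb3, hbm⟩, ⟨hc3, hcm⟩⟩ := hidx
    simp only at ha3 ham hb3 hbm hc3 hcm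
    have hm := h.m3
    have va : v a = (x a, 0, 1) := by rw [hv.line a ham, Lp_ge x a ha3]
    have vb : v b = (x b, 0, 1) := by rw [hv.line b hbm, Lp_ge x b hb3]
    have vc : v c = (x c, 0, 1) := by rw [hv.line c hcm, Lp_ge x c hc3]
    have v0 : v 0 = (1, 0, 0) := by rw [hv.line 0 (by omega), Lp_zero]
    have v1 : v 1 = (0, 0, 1) := by rw [hv.line 1 (by omega), Lp_one]
    have v2 : v 2 = (1, 0, 1) := by rw [hv.line 2 (by omega), Lp_two]
    have xa0 := h.x0 a ha3 ham
    have xb0 := h.x0 b hb3 hbm
    have xc0 := h.x0 c hc3 hcm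
    have xa1 := h.x1 a ha3 ham
    have xb1 := h.x1 b hb3 hbm
    have hn : m ≤ m + 4 * R.length := by omega
    cases ty with
    | true =>
      have hsum : x a + x b = x c := hrel.1 rfl
      obtain ⟨V, P, Q, h1, h2, h3, h4, h5, h6, h7, h8, h9, h10, h11⟩ :=
        quad_generic (m + 4 * R.length) v U (1, 0, 0) (x a, 0, 1) (x c, 0, 1) (0, 0, 1) (x b, 0, 1)
          (x b, 0, 0) (x a) 1 hU xa0 one_ne_zero 0 a c 1 b 0
          (inc_of _ v U hU 0 (by omega) 1 one_ne_zero _ (by rw [v0, one_smul]))
          (inc_of _ v U hU a (by omega) 1 one_ne_zero _ (by rw [va, one_smul]))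
          (inc_of _ v U hU c (by omega) 1 one_ne_zero _ (by rw [vc, one_smul]))
          (inc_of _ v U hU 1 (by omega) 1 one_ne_zero _ (by rw [v1, one_smul]))
          (by rw [v1]; exact D_line _ _ _ rfl rfl rfl)
          (inc_of _ v U hU b (by omega) 1 one_ne_zero _ (by rw [vb, one_smul]))
          (by rw [vb]; exact D_line _ _ _ rfl rfl rfl)
          (inc_of _ v U hU 0 (by omega) (x b) xb0 _ (by rw [v0]; simp))
          (by rw [v0]; exact D_line _ _ _ rfl rfl rfl)
          (inc_pair _ v U hU 0 a (by omega) (by omega) (by omega) _ _ v0.symm va.symm)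
          (inc_pair _ v U hU 0 c (by omega) (by omega) (by omega) _ _ v0.symm vc.symm)
          (inc_pair _ v U hU a c (by omega) (by omega) (by rintro rfl; apply xb0; linarith) _ _
            va.symm vc.symm)
          (inc_pair _ v U hU 1 b (by omega) (by omega) (by omega) _ _ v1.symm vb.symm)
          (D_line _ _ _ rfl rfl rfl)
          (by simp)
          (by simp [← hsum])
          (by simp [← hsum])
      refine ⟨_, hv.extend hm (true, a, b, c) U V P Q ?_ hU h1 ?_ ?_ ?_ ?_ ?_ ?_ h8 h9 h10 h11⟩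
      · intro p q hpq hq
        interval_cases q <;> interval_cases p <;> simp [side] <;> omega
      · intro i hi; rw [h2 i hi]; simp [side]
      · intro i hi; rw [h3 i hi]; simp [side]
      · intro i hi; rw [h4 i hi]; simp [side]
      · intro i hi; rw [h5 i hi]; simp [side]
      · intro i hi; rw [h6 i hi]; simp [side]
      · intro i hi; rw [h7 i hi]; simp [side]
    | false =>
      have hmul : x a * x b = x c := hrel.2 rfl
      obtain ⟨V, P, Q, h1, h2, h3, h4, h5, h6, h7, h8, h9, h10, h11⟩ :=
        quad_generic (m + 4 * R.length) v U (1, 0, 0) (1, 0, 1) (x a, 0, 1) (x b, 0, 1) (x c, 0, 1)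
          (0, 0, 1 - x a) (1 - x b) (x a) hU (sub_ne_zero.2 (Ne.symm xb1)) xa0 0 2 a b c 1
          (inc_of _ v U hU 0 (by omega) 1 one_ne_zero _ (by rw [v0, one_smul]))
          (inc_of _ v U hU 2 (by omega) 1 one_ne_zero _ (by rw [v2, one_smul]))
          (inc_of _ v U hU a (by omega) 1 one_ne_zero _ (by rw [va, one_smul]))
          (inc_of _ v U hU b (by omega) 1 one_ne_zero _ (by rw [vb, one_smul]))
          (by rw [vb]; exact D_line _ _ _ rfl rfl rfl)
          (inc_of _ v U hU c (by omega) 1 one_ne_zero _ (by rw [vc, one_smul]))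
          (by rw [vc]; exact D_line _ _ _ rfl rfl rfl)
          (inc_of _ v U hU 1 (by omega) (1 - x a) (sub_ne_zero.2 (Ne.symm xa1)) _
            (by rw [v1]; simp))
          (by rw [v1]; exact D_line _ _ _ rfl rfl rfl)
          (inc_pair _ v U hU 0 2 (by omega) (by omega) (by omega) _ _ v0.symm v2.symm)
          (inc_pair _ v U hU 0 a (by omega) (by omega) (by omega) _ _ v0.symm va.symm)
          (inc_pair _ v U hU 2 a (by omega) (by omega) (by omega) _ _ v2.symm va.symm)
          (inc_pair _ v U hU b c (by omega) (by omega) (by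
            rintro rfl
            apply xa1
            have : (x a - 1) * x b = 0 := by linarith
            rcases mul_eq_zero.1 this with h | h
            · linarith
            · exact absurd h xb0) _ _ vb.symm vc.symm)
          (D_line _ _ _ rfl rfl rfl)
          (by simp)
          (by
            simp only [Prod.smul_mk, smul_eq_mul, Prod.mk_add_mk, Prod.mk.injEq]
            refine ⟨by rw [← hmul]; ring, by ring, by ring⟩)
          (by
            simp only [Prod.smul_mk, smul_eq_mul, Prod.mk_add_mk, Prod.mk.injEq]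
            refine ⟨by ring, by ring, by ring⟩)
      refine ⟨_, hv.extend hm (false, a, b, c) U V P Q ?_ hU h1 ?_ ?_ ?_ ?_ ?_ ?_ h8 h9 h10 h11⟩
      · intro p q hpq hq
        interval_cases q <;> interval_cases p <;> simp [side] <;> omega
      · intro i hi; rw [h2 i hi]; simp [side]
      · intro i hi; rw [h3 i hi]; simp [side]
      · intro i hi; rw [h4 i hi]; simp [side]
      · intro i hi; rw [h5 i hi]; simp [side]
      · intro i hi; rw [h6 i hi]; simp [side]
      · intro i hi; rw [h7 i hi]; simp [side]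

end Pool.Agent.H693R2.Mat
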