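import Mathlib

/-!
# Quadrangular sets: realising a system of sums and products by a rank-3 configuration
-/

set_option autoImplicit false

namespace Pool.Agent.H693R2.Mat

/-- a relation between values: `(true, a, b, c)` is `x a + x b = x c`, `(false, a, b, c)` is
`x a * x b = x c` -/
abbrev Rel : Type := Bool × ℕ × ℕ × ℕ

/-- the relation holds -/
def RHolds (x : ℕ → ℚ) (r : Rel) : Prop :=
  (r.1 = true → x r.2.1 + x r.2.2.1 = x r.2.2.2) ∧
  (r.1 = false → x r.2.1 * x r.2.2.1 = x r.2.2.2)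

/-- index of the point of the line on the side `p q` of the quadrangle of a relation
(`0` is the point at infinity, `1` is zero, `2` is one, the indices `≥ 3` are the values) -/
def side (r : Rel) (p q : ℕ) : ℕ :=
  if p = 0 then
    (if q = 1 then 0 else if q = 2 then (if r.1 = true then r.2.1 else 2)
      else (if r.1 = true then r.2.2.2 else r.2.1))
  else if p = 1 then
    (if q = 2 then (if r.1 = true then 1 else r.2.2.1) else (if r.1 = true then r.2.2.1 else r.2.2.2))
  else (if r.1 = true then 0 else 1)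

/-- the collinear triples `i < j < k` -/
def NB (m : ℕ) (R : List Rel) (i j k : ℕ) : Prop :=
  k < m ∨ (i < m ∧ m ≤ j ∧ (j - m) / 4 = (k - m) / 4 ∧
    i = side (R.getD ((j - m) / 4) (true, 0, 0, 0)) ((j - m) % 4) ((k - m) % 4))

/-- vectors of `ℚ³` -/
abbrev V3 : Type := ℚ × ℚ × ℚ

/-- determinant -/
def D (x y z : V3) : ℚ :=
  x.1 * (y.2.1 * z.2.2 - y.2.2 * z.2.1) - x.2.1 * (y.1 * z.2.2 - y.2.2 * z.1)
    + x.2.2 * (y.1 * z.2.1 - y.2.1 * z.1)

/-- the vectors are not parallel -/
def NP (x y : V3) : Prop :=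
  x.2.1 * y.2.2 - x.2.2 * y.2.1 ≠ 0 ∨ x.1 * y.2.2 - x.2.2 * y.1 ≠ 0 ∨ x.1 * y.2.1 - x.2.1 * y.1 ≠ 0

/-- the points of the line -/
def Lp (x : ℕ → ℚ) (i : ℕ) : V3 :=
  if i = 0 then (1, 0, 0) else if i = 1 then (0, 0, 1) else if i = 2 then (1, 0, 1) else (x i, 0, 1)

/-- a configuration which realises exactly the matroid of `R` -/
structure Cfg (m : ℕ) (R : List Rel) (x : ℕ → ℚ) (v : ℕ → V3) : Prop where
  line : ∀ i, i < m → v i = Lp x i
  pair : ∀ i j, i < j → j < m + 4 * R.length → NP (v i) (v j)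
  tri : ∀ i j k, i < j → j < k → k < m + 4 * R.length → (D (v i) (v j) (v k) = 0 ↔ NB m R i j k)

theorem NP.symm {x y : V3} (h : NP x y) : NP y x := by
  unfold NP at *
  rcases h with h | h | h
  · left; intro h'; apply h; linarith
  · right; left; intro h'; apply h; linarith
  · right; right; intro h'; apply h; linarith

theorem fin_lin (A B : ℚ) (hA : A ≠ 0) : {κ : ℚ | A + κ * B = 0}.Finite := by
  apply Set.Subsingleton.finite
  intro a ha b hb
  simp only [Set.mem_ofPred_eq] at ha hb
  have hB : B ≠ 0 := by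
    rintro rfl
    apply hA
    linarith
  have : (a - b) * B = 0 := by linarith
  rcases mul_eq_zero.1 this with h | h
  · linarith
  · exact absurd h hB

theorem fin_quad (a b c : ℚ) (h : a ≠ 0 ∨ b ≠ 0 ∨ c ≠ 0) : {t : ℚ | a + b * t + c * t ^ 2 = 0}.Finite := by
  classical
  set p : Polynomial ℚ := Polynomial.C a + Polynomial.C b * Polynomial.X + Polynomial.C c * Polynomial.X ^ 2
    with hp
  have hp0 : p ≠ 0 := by
    intro h0
    have h1 : p.coeff 0 = a := by simp [hp]
    have h2 : p.coeff 1 = b := by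
      simp [hp, Polynomial.coeff_X, Polynomial.coeff_C]
    have h3 : p.coeff 2 = c := by
      simp [hp, Polynomial.coeff_X, Polynomial.coeff_C]
    rw [h0] at h1 h2 h3
    simp at h1 h2 h3
    rcases h with h | h | h
    · exact h h1.symm
    · exact h h2.symm
    · exact h h3.symm
  refine (p.roots.toFinset.finite_toSet).subset ?_
  intro t ht
  simp only [Set.mem_ofPred_eq] at ht
  rw [Finset.mem_coe, Multiset.mem_toFinset, Polynomial.mem_roots hp0]
  show Polynomial.eval t p = 0
  rw [hp]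
  simp only [Polynomial.eval_add, Polynomial.eval_mul, Polynomial.eval_C, Polynomial.eval_X,
    Polynomial.eval_pow]
  exact ht

/-- a generic vector -/
theorem exists_generic (n : ℕ) (v : ℕ → V3) (h : ∀ i j, i < j → j < n → NP (v i) (v j)) :
    ∃ U : V3, ∀ i j, i < j → j < n → D (v i) (v j) U ≠ 0 := by
  set Bad : Set ℚ := ⋃ j ∈ Finset.range n, ⋃ i ∈ Finset.range j,
    {t : ℚ | D (v i) (v j) (1, t, t ^ 2) = 0} with hBad
  have hfin : Bad.Finite := by
    apply Set.Finite.biUnion (Finset.finite_toSet _)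
    intro j hj
    apply Set.Finite.biUnion (Finset.finite_toSet _)
    intro i hi
    have hj' : j < n := by simpa using hj
    have hi' : i < j := by simpa using hi
    have hnp := h i j hi' hj'
    refine (fin_quad ((v i).2.1 * (v j).2.2 - (v i).2.2 * (v j).2.1)
      (-((v i).1 * (v j).2.2 - (v i).2.2 * (v j).1)) ((v i).1 * (v j).2.1 - (v i).2.1 * (v j).1) ?_).subset ?_
    · rcases hnp with h | h | h
      · exact Or.inl h
      · exact Or.inr (Or.inl (neg_ne_zero.2 h))
      · exact Or.inr (Or.inr h)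
    · intro t ht
      simp only [Set.mem_ofPred_eq, D] at ht ⊢
      linarith
  obtain ⟨t, ht⟩ := hfin.infinite_compl.nonempty
  refine ⟨(1, t, t ^ 2), fun i j hij hj h0 => ht ?_⟩
  rw [hBad]
  simp only [Set.mem_iUnion, Finset.mem_range]
  exact ⟨j, hj, i, hij, h0⟩

theorem D_lin1 (x y z w : V3) (a b : ℚ) : D (a • x + b • y) z w = a * D x z w + b * D y z w := by
  simp only [D, Prod.fst_add, Prod.snd_add, Prod.smul_fst, Prod.smul_snd, smul_eq_mul]
  ring

/-- the key genericity statement for one quadrangle -/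
theorem quad_generic (n : ℕ) (v : ℕ → V3) (U I A B G T E : V3) (mu lam : ℚ)
    (hU : ∀ i j, i < j → j < n → D (v i) (v j) U ≠ 0)
    (hmu : mu ≠ 0) (hlam : lam ≠ 0) (nI nA nB nG nT nE : ℕ)
    (hI : ∀ i, i < n → (i ≠ nI ↔ D (v i) U I ≠ 0))
    (hA : ∀ i, i < n → (i ≠ nA ↔ D (v i) U A ≠ 0))
    (hB : ∀ i, i < n → (i ≠ nB ↔ D (v i) U B ≠ 0))
    (hG : ∀ i, i < n → (i ≠ nG ↔ D (v i) U G ≠ 0)) (hG' : D (v nG) I G = 0)
    (hT : ∀ i, i < n → (i ≠ nT ↔ D (v i) U T ≠ 0)) (hT' : D (v nT) I T = 0)
    (hE : ∀ i, i < n → (i ≠ nE ↔ D (v i) U E ≠ 0)) (hE' : D (v nE) A E = 0)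
    (hAI : D U I A ≠ 0) (hBI : D U I B ≠ 0) (hAB : D U A B ≠ 0) (hGT : D U G T ≠ 0)
    (hIGT : D I G T = 0)
    (e1 : A = mu • I + G) (e2 : B = (lam * mu) • I + T) (e3 : B = lam • A + E) :
    ∃ V P Q : V3,
      (∀ i j, i < j → j < n → D (v i) (v j) V ≠ 0 ∧ D (v i) (v j) P ≠ 0 ∧ D (v i) (v j) Q ≠ 0) ∧
      (∀ i, i < n → (D (v i) U V = 0 ↔ i = nI)) ∧ (∀ i, i < n → (D (v i) U P = 0 ↔ i = nA)) ∧
      (∀ i, i < n → (D (v i) U Q = 0 ↔ i = nB)) ∧ (∀ i, i < n → (D (v i) V P = 0 ↔ i = nG)) ∧
      (∀ i, i < n → (D (v i) V Q = 0 ↔ i = nT)) ∧ (∀ i, i < n → (D (v i) P Q = 0 ↔ i = nE)) ∧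
      D U V P ≠ 0 ∧ D U V Q ≠ 0 ∧ D U P Q ≠ 0 ∧ D V P Q ≠ 0 := by
  -- finite set of bad parameters
  set Bad : Set ℚ := {0} ∪ (⋃ j ∈ Finset.range n, ⋃ i ∈ Finset.range j,
    ({t : ℚ | D (v i) (v j) U + t * (mu * D (v i) (v j) I) = 0} ∪
     {t : ℚ | D (v i) (v j) U + t * (D (v i) (v j) A) = 0} ∪
     {t : ℚ | lam * D (v i) (v j) U + t * (D (v i) (v j) B) = 0})) ∪
    (⋃ i ∈ Finset.range n, ({t : ℚ | i ≠ nG ∧ D (v i) U G + t * (mu * D (v i) I G) = 0} ∪
      {t : ℚ | i ≠ nT ∧ D (v i) U T + t * (mu * D (v i) I T) = 0} ∪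
      {t : ℚ | i ≠ nE ∧ D (v i) U E + t * (D (v i) A E) = 0})) with hBad
  have hfin : Bad.Finite := by
    refine ((Set.finite_singleton _).union ?_).union ?_
    · apply Set.Finite.biUnion (Finset.finite_toSet _)
      intro j hj
      apply Set.Finite.biUnion (Finset.finite_toSet _)
      intro i hi
      have hj' : j < n := by simpa using hj
      have hi' : i < j := by simpa using hi
      have h0 := hU i j hi' hj'
      exact ((fin_lin _ _ h0).union (fin_lin _ _ h0)).union (fin_lin _ _ (mul_ne_zero hlam h0))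
    · apply Set.Finite.biUnion (Finset.finite_toSet _)
      intro i hi
      have hi' : i < n := by simpa using hi
      refine (Set.Finite.union ?_ ?_).union ?_
      · by_cases h : i = nG
        · simp [h]
        · exact (fin_lin _ _ ((hG i hi').1 h)).subset (fun t ht => ht.2)
      · by_cases h : i = nT
        · simp [h]
        · exact (fin_lin _ _ ((hT i hi').1 h)).subset (fun t ht => ht.2)
      · by_cases h : i = nE
        · simp [h]
        · exact (fin_lin _ _ ((hE i hi').1 h)).subset (fun t ht => ht.2)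
  obtain ⟨k, hk⟩ := hfin.infinite_compl.nonempty
  have hk0 : k ≠ 0 := by
    intro h
    apply hk
    rw [hBad, h]
    left; left; rfl
  have hk2 : ∀ i j, i < j → j < n → D (v i) (v j) U + k * (mu * D (v i) (v j) I) ≠ 0 ∧
      D (v i) (v j) U + k * (D (v i) (v j) A) ≠ 0 ∧
      lam * D (v i) (v j) U + k * (D (v i) (v j) B) ≠ 0 := by
    intro i j hij hj
    refine ⟨fun h => hk ?_, fun h => hk ?_, fun h => hk ?_⟩ <;>
    · rw [hBad]
      left; right
      simp only [Set.mem_iUnion, Finset.mem_range]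
      refine ⟨j, hj, i, hij, ?_⟩
      simp only [Set.mem_union, Set.mem_ofPred_eq]
      tauto
  have hk3 : ∀ i, i < n → (i ≠ nG → D (v i) U G + k * (mu * D (v i) I G) ≠ 0) ∧
      (i ≠ nT → D (v i) U T + k * (mu * D (v i) I T) ≠ 0) ∧
      (i ≠ nE → D (v i) U E + k * (D (v i) A E) ≠ 0) := by
    intro i hi
    refine ⟨fun h' h => hk ?_, fun h' h => hk ?_, fun h' h => hk ?_⟩ <;>
    · rw [hBad]
      right
      simp only [Set.mem_iUnion, Finset.mem_range]
      refine ⟨i, hi, ?_⟩
      simp only [Set.mem_union, Set.mem_ofPred_eq]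
      tauto
  have eG : G = A - mu • I := by rw [e1]; abel
  have eT : T = B - (lam * mu) • I := by rw [e2]; abel
  have eE : E = B - lam • A := by rw [e3]; abel
  refine ⟨U + (k * mu) • I, U + k • A, lam • U + k • B, ?_, ?_, ?_, ?_, ?_, ?_, ?_, ?_, ?_, ?_, ?_⟩
  · intro i j hij hj
    obtain ⟨h1, h2, h3⟩ := hk2 i j hij hj
    refine ⟨?_, ?_, ?_⟩
    · convert h1 using 1
      simp only [D, Prod.fst_add, Prod.snd_add, Prod.smul_fst, Prod.smul_snd, smul_eq_mul]
      ring
    · convert h2 using 1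
      simp only [D, Prod.fst_add, Prod.snd_add, Prod.smul_fst, Prod.smul_snd, smul_eq_mul]
      ring
    · convert h3 using 1
      simp only [D, Prod.fst_add, Prod.snd_add, Prod.smul_fst, Prod.smul_snd, smul_eq_mul]
      ring
  · intro i hi
    have h := hI i hi
    have e : D (v i) U (U + (k * mu) • I) = (k * mu) * D (v i) U I := by
      simp only [D, Prod.fst_add, Prod.snd_add, Prod.smul_fst, Prod.smul_snd, smul_eq_mul]
      ring
    rw [e, mul_eq_zero, or_iff_right (mul_ne_zero hk0 hmu)]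
    tauto
  · intro i hi
    have h := hA i hi
    have e : D (v i) U (U + k • A) = k * D (v i) U A := by
      simp only [D, Prod.fst_add, Prod.snd_add, Prod.smul_fst, Prod.smul_snd, smul_eq_mul]
      ring
    rw [e, mul_eq_zero, or_iff_right hk0]
    tauto
  · intro i hi
    have h := hB i hi
    have e : D (v i) U (lam • U + k • B) = k * D (v i) U B := by
      simp only [D, Prod.fst_add, Prod.snd_add, Prod.smul_fst, Prod.smul_snd, smul_eq_mul]
      ring
    rw [e, mul_eq_zero, or_iff_right hk0]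
    tauto
  · intro i hi
    have e : D (v i) (U + (k * mu) • I) (U + k • A) = k * (D (v i) U G + k * (mu * D (v i) I G)) := by
      rw [eG]
      simp only [D, Prod.fst_add, Prod.snd_add, Prod.fst_sub, Prod.snd_sub, Prod.smul_fst, Prod.smul_snd,
        smul_eq_mul]
      ring
    rw [e, mul_eq_zero, or_iff_right hk0]
    constructor
    · intro h
      by_contra hne
      exact (hk3 i hi).1 hne h
    · rintro rfl
      have h1 : D (v i) U G = 0 := by
        by_contra h
        exact (hG i hi).2 h rfl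
      rw [h1, hG']
      ring
  · intro i hi
    have e : D (v i) (U + (k * mu) • I) (lam • U + k • B) = k * (D (v i) U T + k * (mu * D (v i) I T)) := by
      rw [eT]
      simp only [D, Prod.fst_add, Prod.snd_add, Prod.fst_sub, Prod.snd_sub, Prod.smul_fst, Prod.smul_snd,
        smul_eq_mul]
      ring
    rw [e, mul_eq_zero, or_iff_right hk0]
    constructor
    · intro h
      by_contra hne
      exact (hk3 i hi).2.1 hne h
    · rintro rfl
      have h1 : D (v i) U T = 0 := by
        by_contra h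
        exact (hT i hi).2 h rfl
      rw [h1, hT']
      ring
  · intro i hi
    have e : D (v i) (U + k • A) (lam • U + k • B) = k * (D (v i) U E + k * (D (v i) A E)) := by
      rw [eE]
      simp only [D, Prod.fst_add, Prod.snd_add, Prod.fst_sub, Prod.snd_sub, Prod.smul_fst, Prod.smul_snd,
        smul_eq_mul]
      ring
    rw [e, mul_eq_zero, or_iff_right hk0]
    constructor
    · intro h
      by_contra hne
      exact (hk3 i hi).2.2 hne h
    · rintro rfl
      have h1 : D (v i) U E = 0 := by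
        by_contra h
        exact (hE i hi).2 h rfl
      rw [h1, hE']
      ring
  · have e : D U (U + (k * mu) • I) (U + k • A) = k ^ 2 * mu * D U I A := by
      simp only [D, Prod.fst_add, Prod.snd_add, Prod.smul_fst, Prod.smul_snd, smul_eq_mul]
      ring
    rw [e]
    exact mul_ne_zero (mul_ne_zero (pow_ne_zero 2 hk0) hmu) hAI
  · have e : D U (U + (k * mu) • I) (lam • U + k • B) = k ^ 2 * mu * D U I B := by
      simp only [D, Prod.fst_add, Prod.snd_add, Prod.smul_fst, Prod.smul_snd, smul_eq_mul]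
      ring
    rw [e]
    exact mul_ne_zero (mul_ne_zero (pow_ne_zero 2 hk0) hmu) hBI
  · have e : D U (U + k • A) (lam • U + k • B) = k ^ 2 * D U A B := by
      simp only [D, Prod.fst_add, Prod.snd_add, Prod.smul_fst, Prod.smul_snd, smul_eq_mul]
      ring
    rw [e]
    exact mul_ne_zero (pow_ne_zero 2 hk0) hAB
  · have e : D (U + (k * mu) • I) (U + k • A) (lam • U + k • B) =
        k ^ 2 * D U G T + k ^ 3 * mu * D I G T := by
      rw [eG, eT]
      simp only [D, Prod.fst_add, Prod.snd_add, Prod.fst_sub, Prod.snd_sub, Prod.smul_fst, Prod.smul_snd,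
        smul_eq_mul]
      ring
    rw [e, hIGT, mul_zero, add_zero]
    exact mul_ne_zero (pow_ne_zero 2 hk0) hGT

end Pool.Agent.H693R2.Mat
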